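import Pool.Agent.Helper74.DR.Defs

/-!
# Project DR (MP_26f0da_lc): module statements

THEOREM.  Let `T` be a finite set of at least two types of brackets, `PD T` the set of words of
brackets and jokers which can be completed to a well nested word.  (a) `PD T` is context-free.
(b) For every context-free `K` over a finite alphabet there are `u`, `v`, `h` such that, for `w ≠ []`,
`w ∈ K` iff `u h(w) v ∈ PD T`.  (c) Every context-free language is in `L` iff `PD T` is in `L`.
For one type of brackets `PD T` is in `L`.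

Plan.  Part 1 (PRS, BSF, SPL, SPR, NOR, SYM, MAC, NFM): every context-free language is accepted by
a one-state real time stack machine whose rules `X → γ`, `γ ≠ []`, have a last (deepest) symbol of
rank `false` and `X` of rank `true`.  Part 2 (TRE, EMB, GA, GB, GC, GAD, STP, BLK, RUN, COM, COD,
GAM): such a machine is simulated by `PD Bool`.  Part 3 (AUB, AUE, CFP): automata and grammars.
Part 4 (HGT, ONE): one type of brackets.

The simple lemmas of `Defs.lean` (`tr_nil`, `tr_op`, `tr_cl`, `tr_jk`, `tr_append`, `tr_ops`, `tr_cls`,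
`tr_cls'`, `ev_even`, `ev_append`, `ev_drop`, `cat_nil`, `cat_cons`, `cat_append`, `cat_single`,
`inL_iff`) may be used.  For each `StX` the module proves `theorem hX : StX` from the listed
statements.
-/

set_option autoImplicit false

namespace Pool.Agent.Helper74.DR

/-! ## Part 1: the machine of a context-free language -/

/-- PRS (about 110 lines).  Parse trees.

Proof.  (←) Induction on `Pr`: for `term` use `Derives.append_left` with the list `[terminal a]`; for
`nont`: `nonterminal r.input :: s` produces `r.output ++ s` (`ContextFreeRule.Rewrites.head`), which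
derives `u.map terminal ++ s` (`Derives.append_right`) and then `u.map terminal ++ v.map terminal`
(`Derives.append_left`).  (→) First: (i) `Pr g n (w.map terminal) w` for `n = w.length`; (ii) splitting: if
`Pr g n (s ++ t) w` then `w = u ++ v`, `Pr g n₁ s u`, `Pr g n₂ t v` for some `n₁ n₂` (induction on `s`,
cases on `Pr`); (iii) joining: `Pr g n₁ s u → Pr g n₂ t v → Pr g (n₁ + n₂) (s ++ t) (u ++ v)` (induction on
the first).  Then head induction on the derivation (`Relation.ReflTransGen.head_induction_on`): if `s`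
rewrites to `s' = p ++ r.output ++ q`, `s = p ++ [nonterminal r.input] ++ q`
(`ContextFreeRule.Rewrites.exists_parts`) and `Pr g n s' w`, split `w` by (ii), apply `nont` and join.
Hypotheses: none. -/
def StPRS : Prop := ∀ (α : Type) (g : ContextFreeGrammar α) (s : List (Symbol α g.NT)) (w : List α),
  g.Derives s (w.map Symbol.terminal) ↔ ∃ n, Pr g n s w

/-- BSF (about 130 lines).  The binary system of a grammar.

Proof.  `V` = the subtype of all lists `s` of symbols which are factors of a right side, that is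
`r.output = p ++ (s ++ q)` for some `r ∈ g.rules`, `p`, `q`, or equal to `[nonterminal g.initial]`.  It is
finite: a finite union of the finite sets of factors of a list (every factor is `(l.drop i).take j`,
`i, j ≤ l.length`).  `L s = {w | w ≠ [] ∧ ∃ n, Pr g n s w}`, `S = [nonterminal g.initial]`.  Splitting: for all `n`, all `s : V`, `w` with
`2 ≤ w.length` and `Pr g n s w` there are `Y Z : V`, `u ∈ L Y`, `v ∈ L Z`, `w = u ++ v` and
`L Y * L Z ⊆ L s`.  Strong induction on `n`, cases on `Pr g n s w`.  `term a s' w'`: `w' ≠ []`, so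
`s' ≠ []`, hence `s` is a factor of a right side (it is not `[nonterminal ..]`), so are `[terminal a]` and
`s'`; `Y = [terminal a]`, `Z = s'` (`Pr g 1 [terminal a] [a]`; every word of `L Y` is `[a]`: cases).
`nont r s' u v n₁ n₂`: (1) `u = []`: then `w = v`, `s' ≠ []` (else `v = []`), so `s'` is in `V` (a factor of the
same right side), the induction hypothesis for `n₂`, `s'`, and `L s' ⊆ L s` because
`Pr g n₁ r.output []`.  (2) `u ≠ []`, `v = []`: the induction hypothesis for `n₁`, `r.output` (in `V`), and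
`L r.output ⊆ L s` because `Pr g n₂ s' []`.  (3) both nonempty: `s' ≠ []`, so `[nonterminal r.input]` and
`s'` are factors of the right side which contains `s`: `Y = [nonterminal r.input]`, `Z = s'`
(`Pr g n Y u' → Pr g m Z v' → Pr g _ s (u' ++ v')`: split `Pr g n [nonterminal r.input] u'` by cases).
The last statement is `hPRS`.  Hypotheses: hPRS. -/
def StBSF : Prop := ∀ (α : Type) (g : ContextFreeGrammar α),
  ∃ (V : Type) (_ : Finite V) (L : V → Set (List α)) (S : V), BS L ∧
    ∀ w : List α, w ≠ [] → (w ∈ g.language ↔ w ∈ L S)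

/-- SPL (about 100 lines).  Left spines.

Proof.  (1) Induction on `LS`: `u ++ (w₁ ++ w₂) = (u ++ w₁) ++ w₂`.  (2) Strong induction on the length
of `a :: w`.  If `w = []`: `P = X`, `refl`.  Otherwise `BS` gives `a :: w = u ++ v`, `u ∈ L Y`, `v ∈ L Z`,
`L Y * L Z ⊆ L X`; `u ≠ []`, `v ≠ []` (`[]` is in no `L`), so `u = a :: u'` is shorter: `[a] ∈ L P`,
`LS L Y P u'`, so `LS L X P (u' ++ v)` by `step`.
(3) Two facts: (snoc) if `L Y * L B ⊆ L Z'`, `b ∈ L B`, `LS L X Z' m` then `LS L X Y (b ++ m)` (induction
on `LS L X Z' m`; `refl`: `step` with `w₁ = []`, `w₂ = b`, `b ++ [] = [] ++ b`).  (first) if `LS L X Y w`,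
`w ≠ []` then there are `B Z' b m` with `w = b ++ m`, `b ∈ L B`, `L Y * L B ⊆ L Z'`, `LS L X Z' m` (induction;
`step X Z B Y w₁ w₂`: if `w₁ = []` then `Z = Y` (cases: a `step` gives a nonempty word), so `b = w₂`,
`Z' = X`, `m = []`; otherwise the induction hypothesis `w₁ = b ++ m` and `LS L X Z' (m ++ w₂)` by `step`).
Now cases on `LS L X Y w`: it is `step X Z B Y w₁ w₂`.  If `w₁ = []` then `Z = Y`, `w = w₂`: left alternative.
Otherwise (first) for `LS L Z Y w₁`: `w₁ = b ++ m`: right alternative with `B₁` = the `B` of `b`, `Z₁ = Z`,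
`Z₂ = Z'`, `B₂ = B`, `w₃ = w₂`; the last property by (snoc) and `step`.
Hypotheses: none. -/
def StSPL : Prop := ∀ (α V : Type) (L : V → Set (List α)), BS L →
  (∀ X Y w, LS L X Y w → ∀ u ∈ L Y, u ++ w ∈ L X) ∧
  (∀ (a : α) (w : List α) (X : V), a :: w ∈ L X → ∃ P, [a] ∈ L P ∧ LS L X P w) ∧
  (∀ X Y w, LS L X Y w → w ≠ [] → (∃ B, w ∈ L B ∧ ∀ v ∈ L B, LS L X Y v) ∨
    ∃ B₁ Z₁ Z₂ B₂ w₁ w₂ w₃, w = w₁ ++ (w₂ ++ w₃) ∧ w₁ ∈ L B₁ ∧ LS L Z₁ Z₂ w₂ ∧ w₃ ∈ L B₂ ∧
      ∀ v₁ ∈ L B₁, ∀ v₂, LS L Z₁ Z₂ v₂ → ∀ v₃ ∈ L B₂, LS L X Y (v₁ ++ (v₂ ++ v₃)))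

/-- SPR (about 100 lines).  Right spines.

Proof.  The mirror image of SPL.  (1) Induction on `RS`: `(w₁ ++ w₂) ++ u = w₁ ++ (w₂ ++ u)`.
(2) Strong induction on the length of `w ++ [b]`.  If `w = []`: `Q = X`, `refl`.  Otherwise `BS`:
`w ++ [b] = u ++ v`, both nonempty, `v = v' ++ [b]` (`v = dropLast v ++ [getLast v]`), `w = u ++ v'`:
`[b] ∈ L Q`, `RS L Z Q v'`, and `RS L X Q (u ++ v')` by `step`.
(3) (snoc) if `L B * L Y ⊆ L Z'`, `b ∈ L B`, `RS L X Z' m` then `RS L X Y (m ++ b)`.  (last) if `RS L X Y w`,
`w ≠ []` then there are `B Z' b m` with `w = m ++ b`, `b ∈ L B`, `L B * L Y ⊆ L Z'`, `RS L X Z' m`.  Then cases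
on `RS L X Y w`: it is `step X B Z Y w₁ w₂`; if `w₂ = []` then `Z = Y`, `w = w₁`: left alternative;
otherwise (last) for `RS L Z Y w₂`: `w₂ = m ++ b`: right alternative with `B₁ = B`, `w₁`, `Z₁ = Z`,
`Z₂ = Z'`, `w₂ = m`, `w₃ = b`.  Hypotheses: none. -/
def StSPR : Prop := ∀ (α V : Type) (L : V → Set (List α)), BS L →
  (∀ X Y w, RS L X Y w → ∀ u ∈ L Y, w ++ u ∈ L X) ∧
  (∀ (b : α) (w : List α) (X : V), w ++ [b] ∈ L X → ∃ Q, [b] ∈ L Q ∧ RS L X Q w) ∧
  (∀ X Y w, RS L X Y w → w ≠ [] → (∃ B, w ∈ L B ∧ ∀ v ∈ L B, RS L X Y v) ∨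
    ∃ B₁ Z₁ Z₂ B₂ w₁ w₂ w₃, w = w₁ ++ (w₂ ++ w₃) ∧ w₁ ∈ L B₁ ∧ RS L Z₁ Z₂ w₂ ∧ w₃ ∈ L B₂ ∧
      ∀ v₁ ∈ L B₁, ∀ v₂, RS L Z₁ Z₂ v₂ → ∀ v₃ ∈ L B₂, RS L X Y (v₁ ++ (v₂ ++ v₃)))

/-- NOR (about 90 lines).  The rules of the symbols.

Proof.  If `w = []`: `γ = []`.  Otherwise `BS` for `a :: w`: `a :: w = u ++ v`, `u ∈ L Y`, `v ∈ L Z`, nonempty;
`u = a :: u'`, `v = v' ++ [b]`, `w = u' ++ (v' ++ [b])`.  hSPL (2): `[a] ∈ L P`, `LS L Y P u'`.  hSPR (2):
`[b] ∈ L Q`, `RS L Z Q v'`.  `γ = γ₁ ++ (γ₂ ++ [t b])` with `γ₁ = []` if `u' = []` and `[l Y P]` otherwise,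
`γ₂ = []` if `v' = []` and `[r Z Q]` otherwise (`cat_append`, `cat_single`, `cat_nil`).  Soundness: a word of
`cat (Ml L) γ` is `u'' ++ (v'' ++ [b])` with `LS L Y P u''` and `RS L Z Q v''` (also if `γ₁ = []`: then
`u'' = [] = u'`), so `a :: u'' = [a] ++ u'' ∈ L Y` (hSPL (1)), `v'' ++ [b] ∈ L Z` (hSPR (1)).
Hypotheses: hSPL hSPR. -/
def StNOR : Prop := ∀ (α V : Type) (L : V → Set (List α)), BS L →
  ∀ (a : α) (w : List α) (X : V), a :: w ∈ L X → ∃ γ : List (Sy α V), γ.length ≤ 3 ∧
    (∀ y ∈ γ.getLast?, y.rk = false) ∧ w ∈ cat (Ml L) γ ∧ ∀ z ∈ cat (Ml L) γ, a :: z ∈ L X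

/-- SYM (about 130 lines).  The rules of the spines.

Proof.  Cases on `X`.  `t b`: `a :: w = [b]`, `γ = []`.  `n X`: hNOR (`rk (n X) = true`).
`l X Y`: `LS L X Y (a :: w)`; hSPL (3).  First alternative (`B`): hNOR for `a :: w ∈ L B`, same `γ`; for
`z ∈ cat γ`: `a :: z ∈ L B`, so `LS L X Y (a :: z)`.  Second alternative: `a :: w = w₁ ++ (w₂ ++ w₃)`,
`w₁ ≠ []`, `w₁ = a :: w₁'`; hNOR for `w₁`: `γ₁`; `w₃ ≠ []`, `w₃ = c :: w₃'`, hNOR for `w₃`: `γ₃`.
`γ = γ₁ ++ (γ₂ ++ (t c :: γ₃))`, `γ₂ = []` if `w₂ = []`, `[l Z₁ Z₂]` otherwise; length at most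
`3 + 1 + 4 = 8`; the last symbol is `t c` (if `γ₃ = []`) or the last symbol of `γ₃`, in both cases of rank
`false`.  Soundness: a word of `cat γ` is `v₁ ++ (v₂ ++ (c :: v₃))` with `v₁ ∈ cat γ₁`, so `a :: v₁ ∈ L B₁`,
`LS L Z₁ Z₂ v₂`, `c :: v₃ ∈ L B₂`.  `r X Y`: the same with hSPR (3) (`γ₂ = [r Z₁ Z₂]`).
Hypotheses: hSPL hSPR hNOR. -/
def StSYM : Prop := ∀ (α V : Type) (L : V → Set (List α)), BS L →
  ∀ (a : α) (w : List α) (X : Sy α V), a :: w ∈ Ml L X →
    ∃ γ : List (Sy α V), Rul Sy.rk (Ml L) a X γ ∧ w ∈ cat (Ml L) γ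

/-- MAC (about 60 lines).  The machine.

Proof.  (→) Induction on the length of `w`, for all `s`.  `s = []`: `w = []`, `Acc.nil`.  `s = X :: s'`:
`w = u ++ v`, `u ∈ M X`, `u ≠ []`, `u = a :: u'`; the hypothesis gives a rule `γ` with `u' ∈ cat M γ`;
`u' ++ v ∈ cat M (γ ++ s')` (`cat_append`), shorter.  (←) Induction on `Acc`: `step`: the word is in
`cat M (γ ++ s)`, so it is `w₁ ++ w₂` with `w₁ ∈ cat M γ`, `w₂ ∈ cat M s`, `a :: w₁ ∈ M X` by `Rul`.
Hypotheses: none. -/
def StMAC : Prop := ∀ (α W : Type) (rk : W → Bool) (M : W → Set (List α)), (∀ X, [] ∉ M X) →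
  (∀ (a : α) (w : List α) (X : W), a :: w ∈ M X → ∃ γ, Rul rk M a X γ ∧ w ∈ cat M γ) →
  ∀ (s : List W) (w : List α), w ∈ cat M s ↔ Acc (Rul rk M) s w

/-- NFM (about 50 lines).  The machine of a context-free language.

Proof.  hBSF: `V`, `L`, `S`.  `W = Sy α V` (finite: it is the image of `α ⊕ V ⊕ (V × V) ⊕ (V × V)`),
`rk = Sy.rk`, `P = Rul Sy.rk (Ml L)`, the start symbol `n S`; hSYM, hMAC and `cat_single`.
Hypotheses: hBSF hSYM hMAC. -/
def StNFM : Prop := ∀ (α : Type) [Finite α] (g : ContextFreeGrammar α),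
  ∃ (W : Type) (_ : Finite W) (rk : W → Bool) (P : α → W → List W → Prop) (S : W),
    (∀ a X γ, P a X γ → γ.length ≤ 8 ∧ ∀ y ∈ γ.getLast?, rk X = true ∧ rk y = false) ∧
    ∀ w : List α, w ≠ [] → (w ∈ g.language ↔ Acc P [S] w)

/-! ## Part 2: brackets with jokers -/

/-- TRE (about 120 lines).  Completion and stacks.

Proof.  (→) For a well nested `w'` and every `w` with `Forall₂ .. w w'` and every stack `σ`: `Tr w σ σ`;
induction on `Dyck w'`.  `wrap t u v`: `w = a :: (w₁ ++ b :: w₂)` (`List.forall₂_cons_right_iff`,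
`List.forall₂_append_right_iff` or similar), `a` is `none` or `some (t, true)`: it is pushed (`tr_op`, left
alternative of `tr_jk`) and gives the stack `x :: σ`, `x = none` or `x = some t`; `Tr w₁ (x :: σ) (x :: σ)`;
`b` is `none` or `some (t, false)` and pops `x`; `Tr w₂ σ σ`; `tr_append`.
(←) Typed runs: `DT : List (T × Bool) → List T → Prop`, `DT [] s ↔ s = []`,
`DT ((t, true) :: w) s ↔ DT w (t :: s)`, `DT ((t, false) :: w) s ↔ ∃ s', s = t :: s' ∧ DT w s'`.
(i) `Tr w σ []` implies that there are `w'` and `s` with `Forall₂ (fun o b => o = none ∨ o = some b) w w'`,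
`Forall₂ (fun o t => o = none ∨ o = some t) σ s` and `DT w' s`: induction on `w` for all `σ`, the type of a
popped `x` is `t` if `x = some t` and arbitrary (`T` is nonempty) if `x = none`.
(ii) `DT w s` implies `Sg w s`, where `Sg w [] ↔ Dyck w`,
`Sg w (t :: s) ↔ ∃ d w₁, w = d ++ (t, false) :: w₁ ∧ Dyck d ∧ Sg w₁ s`; induction on `w`: for `(t, true) :: w`
the induction hypothesis is `w = d ++ (t, false) :: w₁`, `Sg w₁ s`; if `s = []` then `Dyck.wrap`; if
`s = t' :: s'` then `w₁ = d' ++ (t', false) :: w₂`, and `(t, true) :: (d ++ (t, false) :: d')` is well nested.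
For `σ = []`: `s = []`, so `Dyck w'`.  Hypotheses: none. -/
def StTRE : Prop := ∀ (T : Type) [Nonempty T] (w : List (Option (T × Bool))),
  w ∈ PD T ↔ Tr w [] []

/-- EMB (about 60 lines).  Change of types.

Proof.  Let `e = Option.map (Prod.map d id)` on letters, `f = Option.map d` on stack letters; `f` is
injective.  `Tr (w.map e) (σ.map f) τ ↔ ∃ τ', τ = τ'.map f ∧ Tr w σ τ'` by induction on `w` for all `σ`
(pop: `σ.map f = x :: σ'` means `σ = x₀ :: σ₀`, `x = f x₀`; `f x₀ = some (d t) ↔ x₀ = some t`).  Then hTRE twice.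
Hypotheses: hTRE. -/
def StEMB : Prop := ∀ (T : Type) (d : Bool → T), Function.Injective d →
  ∀ w : List (Option (Bool × Bool)), w ∈ PD Bool ↔ w.map (Option.map (Prod.map d id)) ∈ PD T

/-- GA (about 110 lines).  Gadget `A`: soundness.

Proof.  Phase 1: by induction on `Z` in steps of two, `Tr (some (x, true) :: fw Z) σ τ` implies
`Ph x σ Z τ`, where `Ph x σ (z₁ :: z₂ :: Z) τ ↔ ∃ τ', Ph x σ Z τ' ∧ (τ = τ' ∨ τ = none :: some z₂ :: τ')`
and `Ph x σ _ τ ↔ τ = σ ∨ τ = none :: some x :: σ` (a joker read directly after an opening bracket either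
is pushed or pops this bracket; `tr_append`).
Phase 2: if `Ph x (s.map some) Z τ`, `Z.length` and `C.length` odd, `Z.length ≤ C.length`, and
`Tr (C.map closing) τ ρ` then `ρ = (x :: s).map some` or there are `j`, `s'` with `2 * j < C.length`,
`s = C.drop (2 * j) ++ s'`, `ρ = s'.map some`.  Induction on `Z` in steps of two, for all `C`, `τ`.
`Z = [z]`: if `τ = s.map some`: `tr_cls`, `j = 0`.  If `τ = none :: some x :: s.map some`: `C = c₁ :: C₁`, `c₁`
pops `none`; if `C₁ = []` the first alternative; otherwise `C₁ = c₂ :: C₂`, `c₂` pops `some x`, `tr_cls` for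
`C₂`, `j = 1` (`C₂.length` is odd, so `2 < C.length`).  `Z = z₁ :: z₂ :: Z'`: if `τ = τ'` with `Ph x _ Z' τ'`: the
induction hypothesis with the same `C`.  If `τ = none :: some z₂ :: τ'`: `C = c₁ :: c₂ :: C'` (length at least
`3`), `c₁` pops `none`, `c₂` pops `some z₂`, the induction hypothesis for `C'`, `τ'`; `j` is increased by
one.  Finally `C = Z`.  Hypotheses: none. -/
def StGA : Prop := ∀ (T : Type) (x : T) (Z : List T), Odd Z.length →
  ∀ (s : List T) (τ : List (Option T)), Tr (gA x Z) (s.map some) τ →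
    τ = (x :: s).map some ∨
    ∃ j s', 2 * j < Z.length ∧ s = Z.drop (2 * j) ++ s' ∧ τ = s'.map some

/-- GB (about 90 lines).  Gadget `B`: soundness.

Proof.  The opening brackets are pushed (`tr_ops`): the stack is `(U ++ s).map some`.  Claim: for `C` and `V`
of odd length, `C.length ≤ V.length`, `Tr (ew C ++ [some (x, false)]) ((V ++ s).map some) τ` implies
`(∃ j, 2 * j < V.length ∧ τ = (V.drop (2 * j) ++ s).map some) ∨ ∃ s', s = x :: s' ∧ τ = s'.map some`.
Induction on `C` in steps of two for all `V`.  `C = [c]`: `V = v :: V'`.  The joker is pushed: the closing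
`x` pops it: `j = 0`.  Or it pops `v`; then the closing `x` pops the top of `V' ++ s`: if `V' = []`, then
`s = x :: s'`; if `V' = v₂ :: V''` it pops `v₂`: `j = 1` (`V.length` is odd, so at least `3`).
`C = c₁ :: c₂ :: C'`: `V = v₁ :: v₂ :: V'` (length at least `3`).  The joker is pushed: then the closing `c₂`
pops it, the stack is unchanged, the induction hypothesis for `C'`, `V`.  Or it pops `v₁`: then the closing
`c₂` pops `v₂`, the induction hypothesis for `C'`, `V'`, `j` is increased by one.  Finally `C = V = U`.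
Hypotheses: none. -/
def StGB : Prop := ∀ (T : Type) (x : T) (U : List T), Odd U.length →
  ∀ (s : List T) (τ : List (Option T)), Tr (gB x U) (s.map some) τ →
    (∃ j, 2 * j < U.length ∧ τ = (U.drop (2 * j) ++ s).map some) ∨
    ∃ s', s = x :: s' ∧ τ = s'.map some

/-- GC (about 120 lines).  The gadgets: the intended runs.

Proof.  (1) All jokers are pushed: by induction on `Z` in steps of two
`Tr (some (x, true) :: fw Z) σ (Fs x Z σ)` with `Fs x (z₁ :: z₂ :: Z) σ = none :: some z₂ :: Fs x Z σ`,
`Fs x _ σ = none :: some x :: σ`, and `Tr (Z.map closing) (Fs x Z σ) (some x :: σ)` for odd `Z.length`.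
(2) All jokers pop: `Tr (some (x, true) :: fw Z) σ σ`; then `tr_cls'`.
(3) After `tr_ops`: `Tr (ew U) (U.map some ++ σ) σ` (jokers pop; `U = [u]`: the joker pops `u`;
`U = u₁ :: u₂ :: U'`: the joker pops `u₁`, the closing `u₂` pops `u₂`), applied with `some x :: σ`, then the
closing `x` pops `some x`.
(4) After `tr_ops`: the jokers are pushed and popped by the next letter:
`Tr (ew U ++ [some (x, false)]) ρ ρ` for odd `U.length` and all `ρ`, induction on `U` in steps of two.
Hypotheses: none. -/
def StGC : Prop := ∀ (T : Type) (x : T) (l : List T), Odd l.length → ∀ σ : List (Option T),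
  Tr (gA x l) σ (some x :: σ) ∧ Tr (gA x l) (l.map some ++ σ) σ ∧
  Tr (gB x l) (some x :: σ) σ ∧ Tr (gB x l) σ (l.map some ++ σ)

/-- GAD (about 90 lines).  The composite gadget: soundness.

Proof.  `Z = true :: Z₁`, `U = true :: U₁` have odd length (`ev_even`).  First guard: the closing bracket pops
the top, so `s = true :: s₀`, and the opening bracket restores `s`.  hGA: either (i) the stack is
`(x :: s).map some`, or (ii) `s = Z.drop (2 * j) ++ s'` and the stack is `s'.map some`; here `j = 0`, because
for `j = j' + 1` the list `Z.drop (2 * j)` begins with `false` (`ev_drop`); so `s = Z ++ s'`.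
hGB: let `s₁` be the stack (`x :: s` or `s'`); either (a) the stack is `U.drop (2 * j) ++ s₁` or (b)
`s₁ = x :: s₂` and the stack is `s₂`.  Second guard: the top is `true` and the stack is not changed; in
case (a) this gives `j = 0` (`ev_drop`); in case (b) `s₂ = true :: ..`.  Combination: (i)(b) first
alternative, (ii)(a) second, (i)(a) third, (ii)(b) fourth.  Hypotheses: hGA hGB. -/
def StGAD : Prop := ∀ (x : Bool) (Z₁ U₁ : List Bool), Ev Z₁ → Ev U₁ →
  ∀ (s : List Bool) (τ : List (Option Bool)),
    Tr (gad x (true :: Z₁) (true :: U₁)) (s.map some) τ →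
    (∃ s₀, s = true :: s₀) ∧
    (τ = s.map some ∨
    (∃ s', s = true :: (Z₁ ++ s') ∧ τ = (true :: (U₁ ++ s')).map some) ∨
    τ = (true :: (U₁ ++ x :: s)).map some ∨
    ∃ s', s = true :: (Z₁ ++ x :: true :: s') ∧ τ = (true :: s').map some)

/-- STP (about 130 lines).  One gadget in a configuration.

Proof.  hGAD with `Z₁ = false :: false :: code X`, `U₁ = true :: false :: γ.flatMap code` (`Ev` by `Cod` and
`ev_append`).  Fact (F): if `s.flatMap code ++ ρ = code X ++ s''` and (`ρ = []` or `ρ = r :: true :: σ₁`)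
then `s = X :: s'` and `s'' = s'.flatMap code ++ ρ`: if `s = []` then `ρ = code X ++ s''` with
`code X = b :: false :: ..` (`Ev`, length positive), impossible; if `s = Y :: s'` then
`code Y ++ (..) = code X ++ s''` with equal lengths (`List.append_inj`), injectivity.  Fact (G): if
`s.flatMap code ++ ρ = r' :: true :: s''` then `s = []` (otherwise the second letter of `code Y` is `false`).
(1) `N0 i s`.  Unchanged: first alternative.  Second alternative of hGAD: `i = false`, (F) with `ρ = []`.
Third: the stack is `N0 true γ ++ rk X :: N0 i s`, and `N0 i s = true :: ..`: `Bad`, the condition is the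
hypothesis on `γ`.  Fourth: (F), then `s'.flatMap code = rk X :: true :: s''`: (G) gives `s' = []`,
contradiction.
(2) `Bad σ`, `σ = N0 i s ++ r :: true :: σ₁`.  Unchanged: `Bad`.  Second: `i = false`, (F) gives `s = X :: s'`;
the new stack is `N0 true (γ ++ s') ++ r :: true :: σ₁`; the condition for `γ ++ s'`: if `s' ≠ []` the last
symbol is that of `s`; if `s' = []`, `y` is the last symbol of `γ`, `rk X = true` by hypothesis, but `X` is
the last symbol of `s`, so `rk X = false`, contradiction.  Third: as in (1) (`σ = true :: ..`).  Fourth: (F):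
`s = X :: s'`, `s'.flatMap code ++ r :: true :: σ₁ = rk X :: true :: s''`, (G): `s' = []`, so `r = rk X`; but
the condition for `s = [X]` is `r = true ∧ rk X = false`, contradiction.
Hypotheses: hGAD. -/
def StSTP : Prop := ∀ (W : Type) (code : W → List Bool) (rk : W → Bool), Cod code →
  ∀ (X : W) (γ : List W), (∀ y ∈ γ.getLast?, rk X = true ∧ rk y = false) →
  (∀ (i : Bool) (s : List W) (τ : List (Option Bool)),
    Tr (gd code rk (X, γ)) ((N0 code i s).map some) τ →
      τ = (N0 code i s).map some ∨
      (i = false ∧ ∃ s', s = X :: s' ∧ τ = (N0 code true (γ ++ s')).map some) ∨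
      ∃ σ', τ = σ'.map some ∧ Bad code rk σ') ∧
  (∀ (σ : List Bool) (τ : List (Option Bool)), Bad code rk σ →
    Tr (gd code rk (X, γ)) (σ.map some) τ → ∃ σ', τ = σ'.map some ∧ Bad code rk σ')

/-- BLK (about 110 lines).  One block in a configuration.

Proof.  `pre` pops `true`, then `i`, which must be `true`, then `false`, and pushes `false, false, true`:
from `N0 i s` it leads only to `N0 false s` and `i = true`; the same on a `Bad` stack (the result is again
`Bad`, with `i = false`).  Then induction on the list `l` of rules with hSTP: from `N0 false s` the gadgets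
of `l` lead to `N0 false s`, or to `N0 true (γ ++ s')` with `(X, γ) ∈ l`, `s = X :: s'`, or to a `Bad` stack;
from `N0 true s'` they lead to `N0 true s'` or a `Bad` stack; from a `Bad` stack to a `Bad` stack.
Hypotheses: hSTP. -/
def StBLK : Prop := ∀ (W : Type) (code : W → List Bool) (rk : W → Bool), Cod code →
  ∀ l : List (W × List W), (∀ p ∈ l, ∀ y ∈ p.2.getLast?, rk p.1 = true ∧ rk y = false) →
  (∀ (i : Bool) (s : List W) (τ : List (Option Bool)),
    Tr (blk code rk l) ((N0 code i s).map some) τ → i = true ∧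
      (τ = (N0 code false s).map some ∨
      (∃ p ∈ l, ∃ s', s = p.1 :: s' ∧ τ = (N0 code true (p.2 ++ s')).map some) ∨
      ∃ σ', τ = σ'.map some ∧ Bad code rk σ')) ∧
  (∀ (σ : List Bool) (τ : List (Option Bool)), Bad code rk σ →
    Tr (blk code rk l) (σ.map some) τ → ∃ σ', τ = σ'.map some ∧ Bad code rk σ')

/-- RUN (about 90 lines).  Soundness of the simulation.

Proof.  `l a` is the list of rules of the letter `a`.  First: from a `Bad` stack the word
`w.flatMap (blk (l a)) ++ fin` does not lead to `[]`: induction on `w` with hBLK; `fin` pops three letters of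
the flag and leaves `s.flatMap code ++ r :: true :: σ₁ ≠ []`.  Then induction on `w` for all `i`, `s`:
`w = []`: `fin` (`tr_cls` with `[true, true, false]`) gives `i = true` and `s.flatMap code = []`, so `s = []`
(`code X ≠ []`), `Acc.nil`.  `w = a :: w'`: hBLK gives `i = true`; the case `N0 false s` is impossible by the
induction hypothesis (`false = true`), the `Bad` case by the first part, in the remaining case `Acc.step`.
Hypotheses: hBLK. -/
def StRUN : Prop := ∀ (α W : Type) (code : W → List Bool) (rk : W → Bool), Cod code →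
  ∀ l : α → List (W × List W), (∀ a, ∀ p ∈ l a, ∀ y ∈ p.2.getLast?, rk p.1 = true ∧ rk y = false) →
  ∀ (w : List α) (i : Bool) (s : List W),
    Tr ((w.flatMap fun a => blk code rk (l a)) ++ fin) ((N0 code i s).map some) [] →
      i = true ∧ Acc (fun a X γ => (X, γ) ∈ l a) s w

/-- COM (about 100 lines).  Completeness of the simulation.

Proof.  Induction on `Acc`.  `nil`: `fin` pops `fl true`.  `step a X γ s w`: `pre` leads from
`N0 true (X :: s)` to `N0 false (X :: s)`.  A gadget may be skipped: `Tr (gd p) (σ.map some) (σ.map some)` if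
`σ = true :: ..` (guards; hGC: gadget `A` pushes `x`, gadget `B` pops `x`; the lists of `gd` have odd length
by `ev_even`).  The gadget of `(X, γ) ∈ l a` leads from `N0 false (X :: s)` to `N0 true (γ ++ s)` (hGC: `A`
pops `fl false ++ code X`, `B` pushes `fl true ++ γ.flatMap code`; guards).  Write `l a = l₁ ++ (X, γ) :: l₂`
(`List.append_of_mem`), skip `l₁`, use `(X, γ)`, skip `l₂`; `tr_append`.
Hypotheses: hGC. -/
def StCOM : Prop := ∀ (α W : Type) (code : W → List Bool) (rk : W → Bool), Cod code →
  ∀ (l : α → List (W × List W)) (s : List W) (w : List α),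
    Acc (fun a X γ => (X, γ) ∈ l a) s w →
      Tr ((w.flatMap fun a => blk code rk (l a)) ++ fin) ((N0 code true s).map some) []

/-- COD (about 50 lines).  Codes exist.

Proof.  `W` is finite and nonempty: `e : W ≃ Fin n`, `n > 0`.
`code X = (List.ofFn fun j : Fin n => decide (e X = j)).flatMap fun b => [b, false]`.  `Ev`: `Ev` of
`l.flatMap fun b => [b, false]` by induction on `l`.  Length `2 * n`.  Injective:
`l ↦ l.flatMap fun b => [b, false]` is injective (induction), `List.ofFn_injective`.
Hypotheses: none. -/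
def StCOD : Prop := ∀ (W : Type) [Finite W] [Nonempty W], ∃ code : W → List Bool, Cod code

/-- GAM (about 80 lines).  The simulation.

Proof.  hCOD: `code`.  The set `{p : W × List W | p.2.length ≤ 8}` is finite (`List.finite_length_le`), so for
every `a` there is a list `l a` with `p ∈ l a ↔ P a p.1 p.2` (`Set.Finite.toFinset`, `Finset.toList`).  So
`Acc P = Acc (fun a X γ => (X, γ) ∈ l a)`.  `h a = blk code rk (l a)` (nonempty because of `pre`),
`v = fin`, `u = ((N0 code true [S]).reverse).map opening`, which leads from `[]` exactly to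
`(N0 code true [S]).map some` (`tr_ops`).  `u ++ w.flatMap h ++ v ∈ PD Bool` iff `Tr .. [] []` (hTRE) iff
`Tr (w.flatMap h ++ fin) (N0 code true [S]).map some []` (`tr_append`) iff `Acc` (hRUN, hCOM).
Hypotheses: hTRE hRUN hCOM hCOD. -/
def StGAM : Prop := ∀ (α W : Type) [Finite W] (rk : W → Bool) (P : α → W → List W → Prop) (S : W),
  (∀ a X γ, P a X γ → γ.length ≤ 8 ∧ ∀ y ∈ γ.getLast?, rk X = true ∧ rk y = false) →
  ∃ (u v : List (Option (Bool × Bool))) (h : α → List (Option (Bool × Bool))), u ≠ [] ∧
    (∀ a, h a ≠ []) ∧ ∀ w : List α, Acc P [S] w ↔ u ++ (w.flatMap h ++ v) ∈ PD Bool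

/-! ## Part 3: automata and grammars -/

/-- AUB (about 250 lines).  Inverse homomorphisms and quotients.

Use `inL_iff`: `M = (Q, k, δ, q₀, acc)` for `K` with the acceptance after some number of steps.
Fix `w`, `n = w.length`, `N` the length of `W = u ++ (w.flatMap h ++ v)`.  The positions `0, .., N + 1` of `M`
are divided into blocks numbered by the positions `i = 0, .., n + 1` of the new automaton `M'`: block `0`
is the left end marker and `u` (length `u.length + 1`), block `i`, `1 ≤ i ≤ n`, is `h w_i`, block `n + 1` is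
`v` and the right end marker (length `v.length + 1`); all blocks are nonempty.  `st 0 = 0`,
`st i = u.length + 1 + ((w.take (i - 1)).flatMap h).length` for `i ≥ 1`; `st (i + 1) = st i + len i`.
State of `M'`: a state `q` of `M` and for every head `j` a pair `(e_j, o_j)`, `e_j : Bool`,
`o_j : Fin (B + 1)`, where `B` is larger than all lengths (`α` is finite): the head of `M` is at
`st i_j + o_j` if `e_j = false` and at `st i_j + (len i_j - 1 - o_j)` if `e_j = true`, with `o_j < len i_j`.
(The second form is needed because after a move to the left the length of the new block is not yet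
known.)  The letter `(decide (i = 0), w[i - 1]?)` read by the head `j` of `M'` determines the length of the
block (if the Boolean is true: block `0`; otherwise `some a`: `(h a).length`; `none`: `v.length + 1`), so the
offset `o` from the left, and the letter read by `M`: at offset `o` of block `0`:
`(true, u.head?)` if `o = 0` (the frozen model reads `W[0 - 1]? = W[0]?` there; `u ≠ []`), `(false, u[o - 1]?)`
if `o > 0`; block of `a`: `(false, (h a)[o]?)`; last block: `(false, v[o]?)`.
Move of `M` on head `j`, at offset `o` of a block of length `len`: stay: `M'` stays, `(false, o)`.  Right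
(`2` or anything except `0`, `1`): if `o + 1 < len`: stay, `(false, o + 1)`; if `o + 1 = len`: if it is the last
block: stay, `(false, o)`; otherwise `M'` moves right, `(false, 0)`.  Left (`0`): if `o > 0`: stay,
`(false, o - 1)`; if `o = 0`: in block `0`: stay, `(false, 0)`; otherwise `M'` moves left, `(true, 0)`.
Claim: after `t` steps the configurations of `M'` on `w` and of `M` on `W` correspond (same `q`,
`i_j ≤ n + 1`, position formula), by induction on `t`; initially all heads are at `0` with `(false, 0)`.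
`acc' = {c | c.1 ∈ acc}`.  Hypotheses: none. -/
def StAUB : Prop := ∀ (α β : Type) [Finite α] (K : Set (List β)) (u v : List β) (h : α → List β),
  u ≠ [] → (∀ a, h a ≠ []) → InL K → InL {w : List α | u ++ (w.flatMap h ++ v) ∈ K}

/-- AUE (about 130 lines).  The empty word does not matter.

Proof.  Use `inL_iff`: `M = (Q, k, δ, q₀, acc)` for `K₁`.  New automaton: `k + 1` heads (head `0` is new, head
`j.succ` is the head `j` of `M`), states `Option (Option Q)` or `Fin 2 ⊕ Q ⊕ Bool`: in the first state head `0`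
moves right, the others stay; in the second state head `0` (at position `1`) reads `w[0]?`: if it is `none`
(then `w = []`) go to an end state which is accepting iff `[] ∈ K₂` and stays; otherwise go to `q₀`, all heads
stay.  In a state of `M` the heads `j.succ` are moved as by `M`, head `0` stays.  For `w ≠ []`: after
`t + 2` steps the configuration is that of `M` after `t` steps (plus head `0` at position `1`); the first
two states are not accepting.  (`w[1 - 1]? = none ↔ w = []`.)  Accepting states: those of `M` and the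
accepting end state.  Hypotheses: none. -/
def StAUE : Prop := ∀ (α : Type) (K₁ K₂ : Set (List α)), (∀ w, w ≠ [] → (w ∈ K₁ ↔ w ∈ K₂)) →
  InL K₁ → InL K₂

/-- CFP (about 130 lines).  `PD T` is context-free.

Proof.  Grammar with one nonterminal `S` (`NT = Unit`), rules `S → []` and `S → a S b S` for the pairs of
letters `(a, b)` with `∃ t, (a = none ∨ a = some (t, true)) ∧ (b = none ∨ b = some (t, false))` (a finite set
because `T` is finite: `Set.Finite.toFinset`).  By hPRS the language is `{w | ∃ n, Pr g n [S] w}`.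
(⊆) Every `w ∈ PD T` is derived: induction on `Dyck w'` for all `w` with `Forall₂ .. w w'`: `nil`: `w = []`;
`wrap`: `w = a :: (w₁ ++ b :: w₂)`.  (⊇) For `Pr g n s w`: `Sub s w`, where `Sub [] w ↔ w = []`,
`Sub (terminal a :: s) w ↔ ∃ w₁, w = a :: w₁ ∧ Sub s w₁`,
`Sub (nonterminal _ :: s) w ↔ ∃ u v, w = u ++ v ∧ u ∈ PD T ∧ Sub s v`; induction on `Pr`: for the rule `S → []`
the word `u` is `[]`, in `PD T`; for `S → a S b S` it is `a :: (u₁ ++ b :: u₂)` with `u₁, u₂ ∈ PD T`, in `PD T`
by `Dyck.wrap`.  Hypotheses: hPRS. -/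
def StCFP : Prop := ∀ (T : Type) [Finite T],
  ∃ g : ContextFreeGrammar (Option (T × Bool)), ∀ w, w ∈ g.language ↔ w ∈ PD T

/-! ## Part 4: one type of brackets -/

/-- The two counters for one type of brackets: the largest and the smallest possible height, `none` if no
height is possible. -/
def lh : List (Option (Unit × Bool)) → Option (ℕ × ℕ) → Option (ℕ × ℕ)
  | [], c => c
  | _ :: _, none => none
  | some (_, true) :: w, some (l, m) => lh w (some (l + 1, m + 1))
  | some (_, false) :: w, some (l, m) =>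
    lh w (if m = 0 then none else some (if l = 0 then 1 else l - 1, m - 1))
  | none :: w, some (l, m) => lh w (some (if l = 0 then 1 else l - 1, m + 1))

/-- HGT (about 110 lines).  The possible heights for one type of brackets.

Proof.  hTRE with `T = Unit`.  For one type all stack letters are popped by everything, so only the height
counts: `Tr w σ []` depends only on `σ.length`: define `H w k` by `H [] k ↔ k = 0`,
`H (opening :: w) k ↔ H w (k + 1)`, `H (closing :: w) k ↔ ∃ k', k = k' + 1 ∧ H w k'`,
`H (none :: w) k ↔ H w (k + 1) ∨ ∃ k', k = k' + 1 ∧ H w k'`; `Tr w σ [] ↔ H w σ.length` (induction on `w`;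
`x = none ∨ x = some ()` is always true).  Let `S l m = {k | l ≤ k ≤ m, k ≡ l mod 2}`.  Claim: for
`l ≤ m`, `l ≡ m mod 2`: `(∃ k ∈ S l m, H w k) ↔ lh w (some (l, m)) = some (0, m')` for some `m'`.
Induction on `w`: `[]`: `k = 0 ∈ S l m` iff `l = 0`.  Opening: `S (l + 1) (m + 1)` is the shift.  Closing: the
heights `k - 1` for `k ∈ S l m`, `k ≥ 1`: empty if `m = 0`; otherwise from `l - 1` (if `l ≥ 1`) or `1` (if `l = 0`,
then `m ≥ 2`) to `m - 1`.  Joker: `k + 1` and `k - 1` (`k ≥ 1`): from `l - 1` (if `l ≥ 1`) or `1` (if `l = 0`) to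
`m + 1`.  Start with `l = m = 0`.  Hypotheses: hTRE. -/
def StHGT : Prop := ∀ w : List (Option (Unit × Bool)),
  w ∈ PD Unit ↔ ∃ m, lh w (some (0, 0)) = some (0, m)

/-- ONE (about 200 lines).  One type of brackets is in logarithmic space.

Proof.  Use `inL_iff` and hHGT.  Three heads: head `0` reads the word, heads `1`, `2` are the counters
`l ≤ m ≤ w.length` (positions `l`, `m`; never larger than the number of letters read, so `min` is harmless).
States: `start` (move head `0` right, to `run`), `run`, `fix`, `rej`, `acc`.  In `run` head `0` (position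
`i + 1`) reads the letter `w[i]?`: `none`: the word is finished: go to `acc` if head `1` is at `0`
(its Boolean), otherwise to `rej`.  `some (some (_, true))`: all three heads move right, stay in `run`.
`some (some (_, false))`: if head `2` is at `0`: `rej`; otherwise head `0` right, head `2` left, head `1` left if
it is not at `0` and right if it is at `0`.  `some none`: head `0` right, head `2` right, head `1` left if it is
not at `0` and right if it is at `0`.  (No state `fix` is needed.)  Invariant after `t + 1` steps, `t ≤ n`: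
state `run`, head `0` at `t + 1`, heads `1`, `2` at the values of `lh (w.take t) (some (0, 0))`, or
state `rej` and this value is `none` (`lh (w ++ w') c = lh w' (lh w c)`).  `acc` and `rej` are absorbing
(all heads stay).  Hypotheses: hHGT. -/
def StONE : Prop := InL (PD Unit)

end Pool.Agent.Helper74.DR
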