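import Pool.Agent.Helper74.DR.St

set_option autoImplicit false

namespace Pool.Agent.Helper74.DR

theorem hGAM' (hTRE : StTRE) (hRUN : StRUN) (hCOM : StCOM) (hCOD : StCOD) : StGAM := by
  classical
  intro α W _ rk P S hP
  have : Nonempty W := ⟨S⟩
  obtain ⟨code, hc⟩ := hCOD W
  have hfin : ({p : W × List W | p.2.length ≤ 8}).Finite := by
    have h1 : ({γ : List W | γ.length ≤ 8}).Finite := List.finite_length_le W 8
    exact (Set.finite_univ.prod h1).subset (fun p hp => ⟨trivial, hp⟩)
  have hl : ∀ a, ∃ l : List (W × List W), ∀ p, p ∈ l ↔ P a p.1 p.2 := by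
    intro a
    have : ({p : W × List W | P a p.1 p.2}).Finite := hfin.subset (fun p hp => (hP a _ _ hp).1)
    exact ⟨this.toFinset.toList, fun p => by simp⟩
  choose l hl using hl
  have hPl : (fun a X γ => (X, γ) ∈ l a) = P := by
    funext a X γ
    exact propext (hl a (X, γ))
  refine ⟨((N0 code true [S]).reverse).map fun t => some (t, true), fin,
    fun a => blk code rk (l a), ?_, ?_, ?_⟩
  · simp [N0, fl]
  · intro a
    simp [blk, pre]
  · intro w
    rw [hTRE Bool, tr_append]
    constructor
    · intro h
      refine ⟨(N0 code true [S]).map some, ?_, ?_⟩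
      · rw [tr_ops]; simp
      · apply hCOM α W code rk hc l [S] w
        rw [hPl]; exact h
    · rintro ⟨ρ, h1, h2⟩
      rw [tr_ops] at h1
      have h1' : ρ = (N0 code true [S]).map some := by rw [h1]; simp
      rw [h1'] at h2
      have := (hRUN α W code rk hc l (fun a p hp y hy => (hP a p.1 p.2 ((hl a p).1 hp)).2 y hy) w true [S] h2).2
      rwa [hPl] at this

end Pool.Agent.Helper74.DR
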