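import Pool.Agent.Helper74.DR.Fin
import Pool.Agent.Helper36.DR.M_PRS
import Pool.Agent.Helper81.DR.M_BSF
import Pool.Agent.Helper27.DR.M_SPL
import Pool.Agent.Helper84.DR.M_SPR
import Pool.Agent.Helper78.DR.M_NOR
import Pool.Agent.Helper87.DR.M_SYM
import Pool.Agent.Helper16.DR.M_MAC
import Pool.Agent.Helper60.DR.M_NFM
import Pool.Agent.Helper34.DR.M_TRE
import Pool.Agent.Helper66.DR.M_EMB
import Pool.Agent.Helper18.DR.M_GA
import Pool.Agent.Helper2.DR.M_GB
import Pool.Agent.Helper54.DR.M_GC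
import Pool.Agent.Helper82.DR.M_GAD
import Pool.Agent.Helper97.DR.M_STP
import Pool.Agent.Helper22.DR.M_BLK
import Pool.Agent.Helper57.DR.M_RUN
import Pool.Agent.Helper47.DR.M_COM
import Pool.Agent.Helper30.DR.M_COD
import Pool.Agent.Helper74.DR.M_GAM
import Pool.Agent.Helper38.DR.M_AUB
import Pool.Agent.Helper51.DR.M_AUE
import Pool.Agent.Helper62.DR.M_CFP
import Pool.Agent.Helper19.DR.M_HGT
import Pool.Agent.Helper8.DR.M_ONE

/-!
# Project DR (MP_26f0da_lc): the theorem without hypotheses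
-/

set_option autoImplicit false

namespace Pool.Agent.Helper74.DR

theorem hPRS : StPRS := Pool.Agent.Helper36.DR.hPRS
theorem hBSF : StBSF := Pool.Agent.Helper81.DR.hBSF hPRS
theorem hSPL : StSPL := Pool.Agent.Helper27.DR.hSPL
theorem hSPR : StSPR := Pool.Agent.Helper84.DR.hSPR
theorem hNOR : StNOR := Pool.Agent.Helper78.DR.hNOR hSPL hSPR
theorem hSYM : StSYM := Pool.Agent.Helper87.DR.hSYM hSPL hSPR hNOR
theorem hMAC : StMAC := Pool.Agent.Helper16.DR.hMAC
theorem hNFM : StNFM := Pool.Agent.Helper60.DR.hNFM hBSF hSYM hMAC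
theorem hTRE : StTRE := Pool.Agent.Helper34.DR.hTRE
theorem hEMB : StEMB := Pool.Agent.Helper66.DR.hEMB hTRE
theorem hGAD : StGAD := Pool.Agent.Helper82.DR.hGAD Pool.Agent.Helper18.DR.hGA Pool.Agent.Helper2.DR.hGB
theorem hSTP : StSTP := Pool.Agent.Helper97.DR.hSTP hGAD
theorem hRUN : StRUN := Pool.Agent.Helper57.DR.hRUN (Pool.Agent.Helper22.DR.hBLK hSTP)
theorem hCOM : StCOM := Pool.Agent.Helper47.DR.hCOM Pool.Agent.Helper54.DR.hGC
theorem hGAM : StGAM := hGAM' hTRE hRUN hCOM Pool.Agent.Helper30.DR.hCOD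
theorem hAUB : StAUB := Pool.Agent.Helper38.DR.hAUB
theorem hAUE : StAUE := Pool.Agent.Helper51.DR.hAUE
theorem hCFP : StCFP := Pool.Agent.Helper62.DR.hCFP hPRS
theorem hONE : StONE := Pool.Agent.Helper8.DR.hONE (Pool.Agent.Helper19.DR.hHGT hTRE)

theorem main_all :
    (∀ (T : Type) [Fintype T] [Nontrivial T],
      (∃ g : ContextFreeGrammar (Option (T × Bool)), g.language = PD T) ∧
      (∀ (α : Type) [Fintype α] (g : ContextFreeGrammar α),
        ∃ (u v : List (Option (T × Bool))) (h : α → List (Option (T × Bool))),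
          ∀ w : List α, w ≠ [] → (w ∈ g.language ↔ u ++ (w.flatMap h ++ v) ∈ PD T)) ∧
      ((∀ (α : Type) [Fintype α] (g : ContextFreeGrammar α), InL {w | w ∈ g.language}) ↔
        InL (PD T))) ∧
    InL (PD Unit) :=
  main hNFM hGAM hEMB hAUB hAUE hCFP hONE

end Pool.Agent.Helper74.DR
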