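import Pool.Agent.Helper74.DR.Base

/-!
# Project DR (MP_26f0da_lc): definitions and simple facts

THEOREM.  `PD T`: the words over brackets of the types `t : T` and a joker (`none`) which can be
completed to a well nested word by replacing every joker by a bracket.  If `T` has at least two
elements then every context-free language `K` is reduced to `PD T` by `w ↦ u h(w) v`; hence every
context-free language is in `L` if and only if `PD T` is in `L`.

Letters: `some (t, true)` opening bracket, `some (t, false)` closing bracket, `none` joker.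
Stacks (top first): lists of `some t` (an opening bracket of type `t`) and `none` (a joker which
is used as an opening bracket).
-/

set_option autoImplicit false

namespace Pool.Agent.Helper74.DR

/-! ### Well nested words and the joker -/

/-- Reading the word `w` changes the stack `σ` into the stack `τ`. -/
def Tr {T : Type} : List (Option (T × Bool)) → List (Option T) → List (Option T) → Prop
  | [], σ, τ => σ = τ
  | some (t, true) :: w, σ, τ => Tr w (some t :: σ) τ
  | some (t, false) :: w, σ, τ => ∃ x σ', σ = x :: σ' ∧ (x = none ∨ x = some t) ∧ Tr w σ' τ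
  | none :: w, σ, τ => Tr w (none :: σ) τ ∨ ∃ x σ', σ = x :: σ' ∧ Tr w σ' τ

section

variable {T : Type}

theorem tr_nil (σ τ : List (Option T)) : Tr [] σ τ ↔ σ = τ := Iff.rfl

theorem tr_op (t : T) (w : List (Option (T × Bool))) (σ τ : List (Option T)) :
    Tr (some (t, true) :: w) σ τ ↔ Tr w (some t :: σ) τ := Iff.rfl

theorem tr_cl (t : T) (w : List (Option (T × Bool))) (σ τ : List (Option T)) :
    Tr (some (t, false) :: w) σ τ ↔
      ∃ x σ', σ = x :: σ' ∧ (x = none ∨ x = some t) ∧ Tr w σ' τ := Iff.rfl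

theorem tr_jk (w : List (Option (T × Bool))) (σ τ : List (Option T)) :
    Tr (none :: w) σ τ ↔ Tr w (none :: σ) τ ∨ ∃ x σ', σ = x :: σ' ∧ Tr w σ' τ := Iff.rfl

theorem tr_append (w₁ w₂ : List (Option (T × Bool))) (σ τ : List (Option T)) :
    Tr (w₁ ++ w₂) σ τ ↔ ∃ ρ, Tr w₁ σ ρ ∧ Tr w₂ ρ τ := by
  induction w₁ generalizing σ with
  | nil => simp [tr_nil]
  | cons y w ih =>
    rcases y with _ | ⟨t, b⟩
    · rw [List.cons_append, tr_jk]
      simp only [tr_jk, ih]
      constructor
      · rintro (⟨ρ, h1, h2⟩ | ⟨x, σ', h, ρ, h1, h2⟩)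
        · exact ⟨ρ, Or.inl h1, h2⟩
        · exact ⟨ρ, Or.inr ⟨x, σ', h, h1⟩, h2⟩
      · rintro ⟨ρ, h1 | ⟨x, σ', h, h1⟩, h2⟩
        · exact Or.inl ⟨ρ, h1, h2⟩
        · exact Or.inr ⟨x, σ', h, ρ, h1, h2⟩
    · cases b
      · rw [List.cons_append, tr_cl]
        simp only [tr_cl, ih]
        constructor
        · rintro ⟨x, σ', h, hx, ρ, h1, h2⟩
          exact ⟨ρ, ⟨x, σ', h, hx, h1⟩, h2⟩
        · rintro ⟨ρ, ⟨x, σ', h, hx, h1⟩, h2⟩
          exact ⟨x, σ', h, hx, ρ, h1, h2⟩
      · rw [List.cons_append, tr_op]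
        simp only [tr_op, ih]

/-- Opening brackets are pushed. -/
theorem tr_ops (l : List T) (σ τ : List (Option T)) :
    Tr (l.map fun t => some (t, true)) σ τ ↔ τ = l.reverse.map some ++ σ := by
  induction l generalizing σ with
  | nil => simp [tr_nil, eq_comm]
  | cons a l ih => rw [List.map_cons, tr_op, ih]; simp

/-- Closing brackets pop: the case of a stack of opening brackets. -/
theorem tr_cls (l s : List T) (τ : List (Option T)) :
    Tr (l.map fun t => some (t, false)) (s.map some) τ ↔ ∃ s', s = l ++ s' ∧ τ = s'.map some := by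
  induction l generalizing s with
  | nil => simp [tr_nil, eq_comm]
  | cons a l ih =>
    rw [List.map_cons, tr_cl]
    constructor
    · rintro ⟨x, σ', h, hx, h1⟩
      rcases s with _ | ⟨b, s⟩
      · simp at h
      · simp only [List.map_cons, List.cons.injEq] at h
        obtain ⟨rfl, rfl⟩ := h
        obtain ⟨s', rfl, rfl⟩ := (ih s).1 h1
        rcases hx with hx | hx
        · simp at hx
        · simp only [Option.some.injEq] at hx
          subst hx
          exact ⟨s', rfl, rfl⟩
    · rintro ⟨s', rfl, rfl⟩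
      exact ⟨some a, (l ++ s').map some, by simp, Or.inr rfl, (ih _).2 ⟨s', rfl, rfl⟩⟩

theorem tr_cls' (l : List T) (σ : List (Option T)) :
    Tr (l.map fun t => some (t, false)) (l.map some ++ σ) σ := by
  induction l with
  | nil => exact rfl
  | cons a l ih => exact ⟨some a, l.map some ++ σ, by simp, Or.inr rfl, ih⟩

/-! ### The gadgets -/

/-- The jokers of gadget `A`. -/
def fw : List T → List (Option (T × Bool))
  | _ :: z₂ :: Z => fw Z ++ [some (z₂, true), none]
  | _ => [none]

/-- Gadget `A`: pushes `x` or pops `Z`. -/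
def gA (x : T) (Z : List T) : List (Option (T × Bool)) :=
  some (x, true) :: (fw Z ++ Z.map fun z => some (z, false))

/-- The jokers of gadget `B`. -/
def ew : List T → List (Option (T × Bool))
  | _ :: u₂ :: U => none :: some (u₂, false) :: ew U
  | _ => [none]

/-- Gadget `B`: pushes `U` or pops `x`. -/
def gB (x : T) (U : List T) : List (Option (T × Bool)) :=
  (U.reverse.map fun t => some (t, true)) ++ (ew U ++ [some (x, false)])

/-- The composite gadget: the guard, gadgets `A` and `B`, the guard. -/
def gad (x : Bool) (Z U : List Bool) : List (Option (Bool × Bool)) :=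
  [some (true, false), some (true, true)] ++ (gA x Z ++ (gB x U ++
    [some (true, false), some (true, true)]))

/-- Lists of even length whose entries number 2, 4, ... are `false`. -/
def Ev : List Bool → Prop
  | [] => True
  | [_] => False
  | _ :: b :: l => b = false ∧ Ev l

theorem ev_even : ∀ l : List Bool, Ev l → Even l.length
  | [], _ => by simp
  | [_], h => absurd h (by simp [Ev])
  | _ :: b :: l, h => by
    obtain ⟨k, hk⟩ := ev_even l h.2
    exact ⟨k + 1, by simp [hk]; omega⟩

theorem ev_append : ∀ l m : List Bool, Ev l → Ev m → Ev (l ++ m)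
  | [], m, _, hm => by simpa using hm
  | [_], _, h, _ => absurd h (by simp [Ev])
  | _ :: b :: l, m, h, hm => ⟨h.1, ev_append l m h.2 hm⟩

theorem ev_drop : ∀ (l : List Bool) (j : ℕ), Ev l → 2 * j < l.length →
    ∃ l', (true :: l).drop (2 * (j + 1)) = false :: l'
  | [], _, _, h => absurd h (by simp)
  | [_], _, h, _ => absurd h (by simp [Ev])
  | a :: b :: l, 0, h, _ => ⟨l, by rw [h.1]; rfl⟩
  | a :: b :: l, j + 1, h, hj => by
    obtain ⟨l', hl'⟩ := ev_drop l j h.2 (by simp at hj; omega)
    refine ⟨l', ?_⟩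
    have e : (true :: a :: b :: l).drop (2 * (j + 1 + 1)) = (true :: l).drop (2 * (j + 1)) := by
      rw [show 2 * (j + 1 + 1) = (2 * j + 1) + 1 + 1 + 1 by ring,
        show 2 * (j + 1) = (2 * j + 1) + 1 by ring]
      simp only [List.drop_succ_cons]
    rw [e, hl']

/-! ### The machine -/

/-- A one-state stack machine which reads a letter in every step accepts `w` from the stack `s`
with empty stack. `P a X γ`: reading `a` the top `X` may be replaced by `γ`. -/
inductive Acc {α W : Type} (P : α → W → List W → Prop) : List W → List α → Prop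
  | nil : Acc P [] []
  | step (a : α) (X : W) (γ s : List W) (w : List α) : P a X γ → Acc P (γ ++ s) w →
      Acc P (X :: s) (a :: w)

/-- The flag: `fl true` between the blocks, `fl false` inside a block before the step. -/
def fl (i : Bool) : List Bool := [true, i, false]

section

variable {W : Type} (code : W → List Bool) (rk : W → Bool)

/-- The stack for the machine stack `s` with the flag `i`. -/
def N0 (i : Bool) (s : List W) : List Bool := fl i ++ s.flatMap code

/-- The stacks from which no word is accepted. -/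
def Bad (σ : List Bool) : Prop := ∃ (i : Bool) (s : List W) (r : Bool) (σ₁ : List Bool),
  σ = N0 code i s ++ r :: true :: σ₁ ∧ ∀ y ∈ s.getLast?, r = true ∧ rk y = false

/-- The composite gadget of the rule `X → γ`. -/
def gd (p : W × List W) : List (Option (Bool × Bool)) :=
  gad (rk p.1) (fl false ++ code p.1) (fl true ++ p.2.flatMap code)

/-- The beginning of a block: `fl true` is replaced by `fl false`. -/
def pre : List (Option (Bool × Bool)) :=
  [some (true, false), some (true, false), some (false, false), some (false, true),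
    some (false, true), some (true, true)]

/-- The block of the list `l` of rules. -/
def blk (l : List (W × List W)) : List (Option (Bool × Bool)) :=
  pre ++ l.flatMap (gd code rk)

/-- The last word. -/
def fin : List (Option (Bool × Bool)) :=
  [some (true, false), some (true, false), some (false, false)]

/-- The properties of the code of the machine symbols. -/
def Cod : Prop := (∀ X, Ev (code X)) ∧ (∃ n, 0 < n ∧ ∀ X, (code X).length = n) ∧
  Function.Injective code

end

/-! ### Languages -/

variable {α V W : Type}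

/-- A binary system: a family of languages of nonempty words such that every word of length at
least two of `L X` is a product `u v`, `u ∈ L Y`, `v ∈ L Z`, with `L Y * L Z ⊆ L X`. -/
def BS (L : V → Set (List α)) : Prop :=
  (∀ X, [] ∉ L X) ∧ ∀ X, ∀ w ∈ L X, 2 ≤ w.length → ∃ Y Z u v, w = u ++ v ∧ u ∈ L Y ∧ v ∈ L Z ∧
    ∀ u' ∈ L Y, ∀ v' ∈ L Z, u' ++ v' ∈ L X

/-- Left spines: `LS L X Y w` implies `L Y * w ⊆ L X`. -/
inductive LS (L : V → Set (List α)) : V → V → List α → Prop
  | refl (X : V) : LS L X X []
  | step (X Z B Y : V) (w₁ w₂ : List α) : (∀ u ∈ L Z, ∀ v ∈ L B, u ++ v ∈ L X) →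
      LS L Z Y w₁ → w₂ ∈ L B → LS L X Y (w₁ ++ w₂)

/-- Right spines: `RS L X Y w` implies `w * L Y ⊆ L X`. -/
inductive RS (L : V → Set (List α)) : V → V → List α → Prop
  | refl (X : V) : RS L X X []
  | step (X B Z Y : V) (w₁ w₂ : List α) : (∀ u ∈ L B, ∀ v ∈ L Z, u ++ v ∈ L X) →
      w₁ ∈ L B → RS L Z Y w₂ → RS L X Y (w₁ ++ w₂)

/-- The symbols of the machine: letters, symbols, left and right spines. -/
inductive Sy (α V : Type) : Type
  | t (a : α) : Sy α V
  | n (X : V) : Sy α V
  | l (X Y : V) : Sy α V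
  | r (X Y : V) : Sy α V

/-- The rank. -/
def Sy.rk : Sy α V → Bool
  | .t _ => false
  | _ => true

/-- The languages of the symbols. -/
def Ml (L : V → Set (List α)) : Sy α V → Set (List α)
  | .t a => {[a]}
  | .n X => L X
  | .l X Y => {w | w ≠ [] ∧ LS L X Y w}
  | .r X Y => {w | w ≠ [] ∧ RS L X Y w}

/-- The language of a word of symbols. -/
def cat (M : W → Set (List α)) : List W → Set (List α)
  | [] => {[]}
  | X :: s => {w | ∃ u v, w = u ++ v ∧ u ∈ M X ∧ v ∈ cat M s}

theorem cat_nil (M : W → Set (List α)) (w : List α) : w ∈ cat M [] ↔ w = [] := Iff.rfl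

theorem cat_cons (M : W → Set (List α)) (X : W) (s : List W) (w : List α) :
    w ∈ cat M (X :: s) ↔ ∃ u v, w = u ++ v ∧ u ∈ M X ∧ v ∈ cat M s := Iff.rfl

theorem cat_append (M : W → Set (List α)) (s t : List W) (w : List α) :
    w ∈ cat M (s ++ t) ↔ ∃ u v, w = u ++ v ∧ u ∈ cat M s ∧ v ∈ cat M t := by
  induction s generalizing w with
  | nil => simp [cat_nil]
  | cons X s ih =>
    rw [List.cons_append, cat_cons]
    constructor
    · rintro ⟨u, v, rfl, hu, hv⟩
      obtain ⟨a, b, rfl, ha, hb⟩ := (ih v).1 hv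
      exact ⟨u ++ a, b, by simp, ⟨u, a, rfl, hu, ha⟩, hb⟩
    · rintro ⟨u, v, rfl, ⟨a, b, rfl, ha, hb⟩, hv⟩
      exact ⟨a, b ++ v, by simp, ha, (ih _).2 ⟨b, v, rfl, hb, hv⟩⟩

theorem cat_single (M : W → Set (List α)) (X : W) (w : List α) : w ∈ cat M [X] ↔ w ∈ M X := by
  rw [cat_cons]
  constructor
  · rintro ⟨u, v, rfl, hu, hv⟩
    rw [cat_nil] at hv
    simpa [hv] using hu
  · intro h
    exact ⟨w, [], by simp, h, rfl⟩

/-- The rules of the machine of a family `M` of languages with the rank `rk`. -/
def Rul (rk : W → Bool) (M : W → Set (List α)) (a : α) (X : W) (γ : List W) : Prop :=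
  γ.length ≤ 8 ∧ (∀ y ∈ γ.getLast?, rk X = true ∧ rk y = false) ∧ ∀ z ∈ cat M γ, a :: z ∈ M X

end

/-! ### Grammars -/

/-- Parse trees with their number of nodes. -/
inductive Pr {α : Type} (g : ContextFreeGrammar α) : ℕ → List (Symbol α g.NT) → List α → Prop
  | nil : Pr g 0 [] []
  | term (a : α) (s : List (Symbol α g.NT)) (w : List α) (n : ℕ) : Pr g n s w →
      Pr g (n + 1) (Symbol.terminal a :: s) (a :: w)
  | nont (r : ContextFreeRule α g.NT) (s : List (Symbol α g.NT)) (u v : List α) (n m : ℕ) :
      r ∈ g.rules → Pr g n r.output u → Pr g m s v →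
      Pr g (n + m + 1) (Symbol.nonterminal r.input :: s) (u ++ v)

/-! ### Logarithmic space -/

/-- Acceptance in `t` steps. -/
theorem inL_iff {α : Type} (K : Set (List α)) : InL K ↔
    ∃ (Q : Type) (_ : Finite Q) (k : ℕ)
      (δ : Q → (Fin k → Bool × Option α) → Q × (Fin k → Fin 3)) (q₀ : Q) (acc : Set Q),
      ∀ w : List α, w ∈ K ↔ ∃ n : ℕ, ((stp δ w)^[n] (q₀, fun _ => 0)).1 ∈ acc := by
  have key : ∀ (Q : Type) (k : ℕ)
      (δ : Q → (Fin k → Bool × Option α) → Q × (Fin k → Fin 3)) (w : List α)
      (c d : Q × (Fin k → ℕ)), Relation.ReflTransGen (fun c c' => c' = stp δ w c) c d ↔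
      ∃ n : ℕ, (stp δ w)^[n] c = d := by
    intro Q k δ w c d
    constructor
    · intro h
      induction h with
      | refl => exact ⟨0, rfl⟩
      | tail _ h2 ih =>
        obtain ⟨n, hn⟩ := ih
        exact ⟨n + 1, by rw [Function.iterate_succ_apply', hn, h2]⟩
    · rintro ⟨n, rfl⟩
      induction n with
      | zero => exact Relation.ReflTransGen.refl
      | succ n ih => exact ih.tail (Function.iterate_succ_apply' _ _ _)
  constructor
  · rintro ⟨Q, hQ, k, δ, q₀, acc, h⟩
    refine ⟨Q, hQ, k, δ, q₀, acc, fun w => (h w).trans ?_⟩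
    constructor
    · rintro ⟨q, p, hq, hr⟩
      obtain ⟨n, hn⟩ := (key Q k δ w _ _).1 hr
      exact ⟨n, by rw [hn]; exact hq⟩
    · rintro ⟨n, hn⟩
      exact ⟨_, _, hn, (key Q k δ w _ _).2 ⟨n, rfl⟩⟩
  · rintro ⟨Q, hQ, k, δ, q₀, acc, h⟩
    refine ⟨Q, hQ, k, δ, q₀, acc, fun w => (h w).trans ?_⟩
    constructor
    · rintro ⟨n, hn⟩
      exact ⟨_, _, hn, (key Q k δ w _ _).2 ⟨n, rfl⟩⟩
    · rintro ⟨q, p, hq, hr⟩
      obtain ⟨n, hn⟩ := (key Q k δ w _ _).1 hr
      exact ⟨n, by rw [hn]; exact hq⟩

end Pool.Agent.Helper74.DR
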