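import Mathlib

/-!
# Bracket words with jokers and logarithmic space: definitions

Letters: `some (t, true)` is the opening bracket of type `t`, `some (t, false)` the closing bracket of
type `t`, `none` the joker.
-/

set_option autoImplicit false

namespace Pool.Agent.Helper74.DR

/-- Well nested words of brackets `(t, true)` (opening) and `(t, false)` (closing). -/
inductive Dyck {T : Type} : List (T × Bool) → Prop
  | nil : Dyck []
  | wrap (t : T) (u v : List (T × Bool)) : Dyck u → Dyck v →
      Dyck ((t, true) :: (u ++ (t, false) :: v))

/-- The words with jokers `none` which can be completed to a well nested word. -/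
def PD (T : Type) : Set (List (Option (T × Bool))) :=
  {w | ∃ w' : List (T × Bool), Dyck w' ∧ List.Forall₂ (fun o b => o = none ∨ o = some b) w w'}

/-- The configuration after one step of a deterministic two-way automaton with `k` heads. -/
def stp {α Q : Type} {k : ℕ} (δ : Q → (Fin k → Bool × Option α) → Q × (Fin k → Fin 3))
    (w : List α) (c : Q × (Fin k → ℕ)) : Q × (Fin k → ℕ) :=
  ((δ c.1 (fun j => (decide (c.2 j = 0), w[c.2 j - 1]?))).1,
    fun i =>
      if (δ c.1 (fun j => (decide (c.2 j = 0), w[c.2 j - 1]?))).2 i = 0 then c.2 i - 1
      else if (δ c.1 (fun j => (decide (c.2 j = 0), w[c.2 j - 1]?))).2 i = 1 then c.2 i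
      else min (c.2 i + 1) (w.length + 1))

/-- `K` is accepted by a deterministic two-way automaton with finitely many heads and endmarkers
(that is, `K` is in deterministic logarithmic space); the model is that of the frozen statement
`S14499`. -/
def InL {α : Type} (K : Set (List α)) : Prop :=
  ∃ (Q : Type) (_ : Finite Q) (k : ℕ)
    (δ : Q → (Fin k → Bool × Option α) → Q × (Fin k → Fin 3)) (q₀ : Q) (acc : Set Q),
    ∀ w : List α, w ∈ K ↔ ∃ (q : Q) (h : Fin k → ℕ), q ∈ acc ∧
      Relation.ReflTransGen (fun c c' => c' = stp δ w c) (q₀, fun _ => 0) (q, h)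

end Pool.Agent.Helper74.DR
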