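import Pool.Agent.Helper74.DR.St

/-!
# Project DR (MP_26f0da_lc): the final assembly
-/

set_option autoImplicit false

namespace Pool.Agent.Helper74.DR

/-- The reduction of a context-free language to the words with jokers. -/
theorem reduction (hNFM : StNFM) (hGAM : StGAM) (hEMB : StEMB) (T : Type) [Nontrivial T]
    (α : Type) [Finite α] (g : ContextFreeGrammar α) :
    ∃ (u v : List (Option (T × Bool))) (h : α → List (Option (T × Bool))), u ≠ [] ∧
      (∀ a, h a ≠ []) ∧ ∀ w : List α, w ≠ [] →
        (w ∈ g.language ↔ u ++ (w.flatMap h ++ v) ∈ PD T) := by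
  obtain ⟨t₀, t₁, ht⟩ := exists_pair_ne T
  obtain ⟨W, hW, rk, P, S, hP, hS⟩ := hNFM α g
  obtain ⟨u, v, h, hu, hh, hw⟩ := hGAM α W rk P S hP
  let d : Bool → T := fun b => if b then t₁ else t₀
  have hd : Function.Injective d := by
    intro a b hab
    cases a <;> cases b <;> simp [d, ht, ht.symm] at hab ⊢
  refine ⟨u.map (Option.map (Prod.map d id)), v.map (Option.map (Prod.map d id)),
    fun a => (h a).map (Option.map (Prod.map d id)), ?_, ?_, ?_⟩
  · simpa using hu
  · intro a
    simpa using hh a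
  · intro w hne
    rw [hS w hne, hw w, hEMB T d hd]
    have : (u ++ (w.flatMap h ++ v)).map (Option.map (Prod.map d id)) =
        u.map (Option.map (Prod.map d id)) ++
          ((w.flatMap fun a => (h a).map (Option.map (Prod.map d id))) ++
            v.map (Option.map (Prod.map d id))) := by
      rw [List.map_append, List.map_append, List.map_flatMap]
    rw [this]

theorem main (hNFM : StNFM) (hGAM : StGAM) (hEMB : StEMB) (hAUB : StAUB) (hAUE : StAUE)
    (hCFP : StCFP) (hONE : StONE) :
    (∀ (T : Type) [Fintype T] [Nontrivial T],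
      (∃ g : ContextFreeGrammar (Option (T × Bool)), g.language = PD T) ∧
      (∀ (α : Type) [Fintype α] (g : ContextFreeGrammar α),
        ∃ (u v : List (Option (T × Bool))) (h : α → List (Option (T × Bool))),
          ∀ w : List α, w ≠ [] → (w ∈ g.language ↔ u ++ (w.flatMap h ++ v) ∈ PD T)) ∧
      ((∀ (α : Type) [Fintype α] (g : ContextFreeGrammar α), InL {w | w ∈ g.language}) ↔
        InL (PD T))) ∧
    InL (PD Unit) := by
  refine ⟨?_, hONE⟩
  intro T _ _
  obtain ⟨g₀, hg₀⟩ := hCFP T
  refine ⟨⟨g₀, Set.ext hg₀⟩, ?_, ?_, ?_⟩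
  · intro α _ g
    obtain ⟨u, v, h, _, _, hw⟩ := reduction hNFM hGAM hEMB T α g
    exact ⟨u, v, h, hw⟩
  · intro hQ
    have := hQ (Option (T × Bool)) g₀
    have e : {w | w ∈ g₀.language} = PD T := Set.ext hg₀
    rwa [e] at this
  · intro hL α _ g
    obtain ⟨u, v, h, hu, hh, hw⟩ := reduction hNFM hGAM hEMB T α g
    have h1 := hAUB α _ (PD T) u v h hu hh hL
    exact hAUE α _ _ (fun w hne => (hw w hne).symm) h1

end Pool.Agent.Helper74.DR
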